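import Pool.Agent.N60.ZG.CNT
import Pool.Agent.N60.ZG.COMB
import Pool.Agent.N60.ZG.PIG
import Pool.Agent.N60.ZG.IND
import Pool.Agent.R330.GL.Top

/-!
# The gcd recursion for Goldbach pairs: many very large gcds

The large gcds at odd steps, as a sequence of their own, satisfy the hypotheses `Jumps` of the main
inequality of project ZG.
-/

set_option autoImplicit false

namespace Pool.Agent.U901.GL

open Finset Pool.Agent.R330.GL Pool.Agent.N60.ZG

theorem st_main : ST_MAIN := main' diag_main comb_main pig_main ind_main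

/-- the enumeration of a finite set, starting at the index one; the index zero is sent to one -/
noncomputable def idx (E : Finset ℕ) (k : ℕ) : ℕ :=
  if h : 1 ≤ k ∧ k ≤ E.card then E.orderEmbOfFin rfl ⟨k - 1, by omega⟩ else 1

lemma idx_mem {E : Finset ℕ} {k : ℕ} (h1 : 1 ≤ k) (h2 : k ≤ E.card) : idx E k ∈ E := by
  rw [idx, dif_pos ⟨h1, h2⟩]
  exact E.orderEmbOfFin_mem rfl _

lemma idx_lt {E : Finset ℕ} {i j : ℕ} (h1 : 1 ≤ i) (h2 : i < j) (h3 : j ≤ E.card) :
    idx E i < idx E j := by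
  rw [idx, dif_pos ⟨h1, by omega⟩, idx, dif_pos ⟨by omega, h3⟩, OrderEmbedding.lt_iff_lt]
  exact Fin.mk_lt_mk.2 (by omega)

lemma idx_lt_iff {E : Finset ℕ} {i j : ℕ} (hi : 1 ≤ i) (hi' : i ≤ E.card) (hj : 1 ≤ j)
    (hj' : j ≤ E.card) : idx E i < idx E j ↔ i < j := by
  constructor
  · intro h
    by_contra hc
    push Not at hc
    rcases hc.lt_or_eq with h' | h'
    · have := idx_lt hj h' hi'
      omega
    · rw [h'] at h
      exact lt_irrefl _ h
  · exact fun h => idx_lt hi h hj'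

lemma exists_idx {E : Finset ℕ} {n : ℕ} (hn : n ∈ E) : ∃ k, 1 ≤ k ∧ k ≤ E.card ∧ idx E k = n := by
  have h1 : n ∈ Set.range (E.orderEmbOfFin (rfl : E.card = E.card)) := by
    rw [Finset.range_orderEmbOfFin]
    exact hn
  obtain ⟨t, ht⟩ := h1
  refine ⟨t.1 + 1, by omega, t.2, ?_⟩
  rw [idx, dif_pos ⟨by omega, t.2⟩, ← ht]
  congr 1

/-- sums over the indices between two given ones -/
lemma sum_idx (E : Finset ℕ) (F : ℕ → ℝ) (I : Finset ℕ) (hI : ∀ k ∈ I, 1 ≤ k ∧ k ≤ E.card)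
    (p : ℕ → Prop) [DecidablePred p] (hp : ∀ k, 1 ≤ k → k ≤ E.card → (k ∈ I ↔ p (idx E k))) :
    ∑ k ∈ I, F (idx E k) = ∑ n ∈ E.filter p, F n := by
  refine Finset.sum_bij (fun k _ => idx E k) ?_ ?_ ?_ ?_
  · intro k hk
    obtain ⟨h1, h2⟩ := hI k hk
    exact mem_filter.2 ⟨idx_mem h1 h2, (hp k h1 h2).1 hk⟩
  · intro k hk k' hk' h
    obtain ⟨h1, h2⟩ := hI k hk
    obtain ⟨h3, h4⟩ := hI k' hk'
    rcases lt_trichotomy k k' with hlt | heq | hgt
    · have := idx_lt h1 hlt h4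
      omega
    · exact heq
    · have := idx_lt h3 hgt h2
      omega
  · intro n hn
    rw [mem_filter] at hn
    obtain ⟨k, h1, h2, h3⟩ := exists_idx hn.1
    refine ⟨k, (hp k h1 h2).2 ?_, h3⟩
    rw [h3]
    exact hn.2
  · intro k _
    rfl

variable {N f : ℕ} {a γ : ℕ → ℤ}

/-- the sum of the gcds between two steps -/
lemma Des.tel (h : Des N f a γ) {n : ℕ} (hn : 1 ≤ n) :
    ∀ k, n ≤ k → k ≤ f → a n - a k = ∑ j ∈ Ioc n k, γ j := by
  intro k hk
  induction k, hk using Nat.le_induction with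
  | base => intro _; simp
  | succ k hk ih =>
    intro hkf
    have h1 := ih (by omega)
    have h2 := h.step (k + 1) (by omega) hkf
    rw [Nat.add_sub_cancel] at h2
    rw [Finset.sum_Ioc_succ_top hk, ← h1, h2]
    ring

/-- the odd steps with a gcd of size at least `B` -/
noncomputable def big (f : ℕ) (γ : ℕ → ℤ) (B : ℝ) : Finset ℕ :=
  (Icc 2 f).filter fun n => n % 2 = 1 ∧ B ≤ (γ n : ℝ)

/-- the sum of the gcds over a set of steps, without the large ones -/
lemma Des.sum_small (h : Des N f a γ) {B : ℝ} (hB : 1 ≤ B) (I : Finset ℕ) (hI : I ⊆ Icc 2 f) :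
    ∑ j ∈ I, (γ j : ℝ) ≤ ∑ j ∈ (big f γ B).filter (· ∈ I), (γ j : ℝ) + (f : ℝ) * (f + B) := by
  classical
  have h1 : (big f γ B).filter (· ∈ I) = I.filter fun n => n % 2 = 1 ∧ B ≤ (γ n : ℝ) := by
    ext n
    simp only [big, mem_filter]
    constructor
    · rintro ⟨⟨_, h1⟩, h2⟩
      exact ⟨h2, h1⟩
    · rintro ⟨h1, h2⟩
      exact ⟨⟨hI h1, h2⟩, h1⟩
  rw [h1, ← Finset.sum_filter_add_sum_filter_not I fun n => n % 2 = 1 ∧ B ≤ (γ n : ℝ)]
  refine add_le_add le_rfl ?_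
  have h2 : ∀ n ∈ I.filter (fun n => ¬ (n % 2 = 1 ∧ B ≤ (γ n : ℝ))), (γ n : ℝ) ≤ f + B := by
    intro n hn
    rw [mem_filter] at hn
    have h3 := mem_Icc.1 (hI hn.1)
    have hf0 : (0 : ℝ) ≤ f := Nat.cast_nonneg f
    rcases Nat.mod_two_eq_zero_or_one n with he | ho
    · have h4 := h.even_le h3.1 h3.2 he
      have h5 : (γ n : ℝ) ≤ n := by exact_mod_cast h4
      have h6 : (n : ℝ) ≤ f := by exact_mod_cast h3.2
      linarith
    · have h4 : (γ n : ℝ) < B := by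
        by_contra hc
        push Not at hc
        exact hn.2 ⟨ho, hc⟩
      linarith
  have h3 := Finset.sum_le_sum h2
  refine h3.trans ?_
  rw [sum_const, nsmul_eq_mul]
  have h4 : ((I.filter (fun n => ¬ (n % 2 = 1 ∧ B ≤ (γ n : ℝ)))).card : ℝ) ≤ f := by
    have h5 : (I.filter (fun n => ¬ (n % 2 = 1 ∧ B ≤ (γ n : ℝ)))).card ≤ (Icc 2 f).card :=
      (card_le_card (filter_subset _ I)).trans (card_le_card hI)
    rw [Nat.card_Icc] at h5
    exact_mod_cast (by omega : (I.filter (fun n => ¬ (n % 2 = 1 ∧ B ≤ (γ n : ℝ)))).card ≤ f)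
  exact mul_le_mul_of_nonneg_right h4 (by positivity)

/-- the sequence of the large gcds, divided by `N` -/
noncomputable def gg (N f : ℕ) (γ : ℕ → ℤ) (B : ℝ) (k : ℕ) : ℝ :=
  if k = 0 then 1 else if k ≤ (big f γ B).card then (γ (idx (big f γ B) k) : ℝ) / N else 0

lemma gg_of (N f : ℕ) (γ : ℕ → ℤ) (B : ℝ) {k : ℕ} (h1 : 1 ≤ k) (h2 : k ≤ (big f γ B).card) :
    gg N f γ B k = (γ (idx (big f γ B) k) : ℝ) / N := by
  rw [gg, if_neg (by omega), if_pos h2]

lemma sum_gg (N f : ℕ) (γ : ℕ → ℤ) (B : ℝ) (I : Finset ℕ)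
    (hI : ∀ k ∈ I, 1 ≤ k ∧ k ≤ (big f γ B).card) (p : ℕ → Prop) [DecidablePred p]
    (hp : ∀ k, 1 ≤ k → k ≤ (big f γ B).card → (k ∈ I ↔ p (idx (big f γ B) k))) :
    ∑ k ∈ I, gg N f γ B k = (∑ n ∈ (big f γ B).filter p, (γ n : ℝ)) / N := by
  rw [sum_div, ← sum_idx (big f γ B) (fun n => (γ n : ℝ) / N) I hI p hp]
  exact sum_congr rfl fun k hk => gg_of N f γ B (hI k hk).1 (hI k hk).2

lemma mem_big {f : ℕ} {γ : ℕ → ℤ} {B : ℝ} {n : ℕ} :
    n ∈ big f γ B ↔ (2 ≤ n ∧ n ≤ f) ∧ n % 2 = 1 ∧ B ≤ (γ n : ℝ) := by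
  rw [big, mem_filter, mem_Icc]

/-- the large gcds satisfy the hypotheses of the main inequality -/
theorem Des.jumps (h : Des N f a γ) {B Z : ℝ} (hB : 1 ≤ B) (hZ : 1 ≤ Z)
    (hZB : 4 * Z * (f * (f + B)) ≤ N) : Jumps (big f γ B).card (gg N f γ B) Z := by
  classical
  have hf2 : (2 : ℝ) ≤ f := by exact_mod_cast h.ge
  have hR0 : 6 ≤ (f : ℝ) * (f + B) := by nlinarith
  have hRN : 4 * ((f : ℝ) * (f + B)) ≤ N := by
    have : 4 * ((f : ℝ) * (f + B)) * 1 ≤ 4 * ((f : ℝ) * (f + B)) * Z :=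
      mul_le_mul_of_nonneg_left hZ (by positivity)
    linarith
  have hN : (0 : ℝ) < N := by linarith
  obtain ⟨R, hR⟩ : ∃ R, R = (f : ℝ) * (f + B) := ⟨_, rfl⟩
  rw [← hR] at hR0 hRN hZB
  refine ⟨?_, ?_, ?_, ?_⟩
  · rw [gg, if_pos rfl]
  · intro k
    rw [gg]
    split_ifs with h1 h2
    · exact zero_le_one
    · have h3 := mem_big.1 (idx_mem (by omega : 1 ≤ k) h2)
      have h4 := h3.2.2
      exact div_nonneg (by linarith) hN.le
    · exact le_rfl
  · intro i j hij hj hZg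
    set E := big f γ B with hE
    have hj1 : 1 ≤ j := by omega
    have mj := mem_big.1 (idx_mem hj1 hj)
    obtain ⟨m, hm⟩ : ∃ m, m = idx E j := ⟨_, rfl⟩
    rw [← hE, ← hm] at mj
    rcases Nat.eq_zero_or_pos i with hi | hi
    · subst hi
      have e0 : gg N f γ B 0 = 1 := by rw [gg, if_pos rfl]
      rw [e0, one_mul] at hZg ⊢
      rw [gg_of N f γ B hj1 hj, ← hE, ← hm] at hZg ⊢
      rw [sum_gg N f γ B (Ioo 0 j) (fun k hk => by
        have := mem_Ioo.1 hk
        rw [← hE]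
        omega) (fun n => n ∈ Icc 2 (m - 1)) (fun k hk1 hk2 => by
        rw [← hE] at hk2
        rw [mem_Ioo, mem_Icc, ← hE, hm]
        have h5 := (mem_big.1 (idx_mem (E := E) hk1 hk2)).1
        rw [← idx_lt_iff hk1 hk2 hj1 hj]
        omega)]
      have h1 := Des.sum_small h hB (Icc 2 (m - 1)) (Icc_subset_Icc le_rfl (by omega))
      rw [← hR] at h1
      have h2 := h.odd_le mj.1.1 mj.1.2 mj.2.1
      have h3 := Des.tel h (n := 1) le_rfl (m - 1) (by omega) (by omega)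
      rw [h.one, show Ioc 1 (m - 1) = Icc 2 (m - 1) from rfl] at h3
      have h4 : (γ m : ℝ) ≤ 2 * ∑ j ∈ Icc 2 (m - 1), (γ j : ℝ) + 4 - m := by
        have h5 : γ m ≤ 2 * ∑ j ∈ Icc 2 (m - 1), γ j + 4 - m := by
          rw [← h3]
          linarith
        exact_mod_cast h5
      obtain ⟨T, hT⟩ : ∃ T, T = ∑ n ∈ (big f γ B).filter (· ∈ Icc 2 (m - 1)), (γ n : ℝ) := ⟨_, rfl⟩
      have hm2 : (2 : ℝ) ≤ m := by exact_mod_cast mj.1.1
      have h6 : 4 * R ≤ γ m := by
        have h7 : (N : ℝ) ≤ Z * γ m := by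
          have h8 := mul_le_mul_of_nonneg_right hZg hN.le
          rw [one_mul] at h8
          have h9 : Z * ((γ m : ℝ) / N) * N = Z * γ m := by field_simp
          rwa [h9] at h8
        have h8 : Z * (4 * R) ≤ Z * γ m := by linarith
        exact le_of_mul_le_mul_left h8 (by linarith)
      have h7 : (γ m : ℝ) ≤ 8 * T := by
        rw [hT]
        rw [hT] at *
        linarith
      rw [← mul_div_assoc]
      refine div_le_div_of_nonneg_right ?_ hN.le
      rw [hT] at h7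
      exact h7
    · have mi := mem_big.1 (idx_mem hi (by omega : i ≤ E.card))
      obtain ⟨n, hn⟩ : ∃ n, n = idx E i := ⟨_, rfl⟩
      rw [← hE, ← hn] at mi
      have hnm : n < m := by
        rw [hn, hm]
        exact idx_lt hi hij hj
      have hi' : i ≤ E.card := by omega
      rw [gg_of N f γ B hj1 hj, gg_of N f γ B hi hi', ← hE, ← hm, ← hn] at hZg ⊢
      rw [sum_gg N f γ B (Ioo i j) (fun k hk => by
        have := mem_Ioo.1 hk
        rw [← hE]
        omega) (fun l => l ∈ Ioc n (m - 1)) (fun k hk1 hk2 => by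
        rw [← hE] at hk2
        rw [mem_Ioo, mem_Ioc, ← hE, hm, hn, ← idx_lt_iff hk1 hk2 hj1 hj,
          ← idx_lt_iff hi (by omega) hk1 hk2]
        omega)]
      have h1 := Des.sum_small h hB (Ioc n (m - 1)) (fun l hl => by
        rw [mem_Ioc] at hl
        rw [mem_Icc]
        omega)
      rw [← hR] at h1
      have h2 := h.key mi.1.1 mj.1.2 hnm mi.2.1 mj.2.1
      rw [Des.tel h (n := n) (by omega) (m - 1) (by omega) (by omega)] at h2
      have h3 : (γ n : ℝ) * γ m ≤ 2 * N * ∑ j ∈ Ioc n (m - 1), (γ j : ℝ) := by exact_mod_cast h2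
      obtain ⟨T, hT⟩ : ∃ T, T = ∑ l ∈ (big f γ B).filter (· ∈ Ioc n (m - 1)), (γ l : ℝ) := ⟨_, rfl⟩
      have e1 : (γ n : ℝ) / N * (γ m / N) = γ n * γ m / (N * N) := by
        field_simp
      rw [e1] at hZg ⊢
      have h6 : 4 * R * N ≤ γ n * γ m := by
        have h7 : (N : ℝ) * N ≤ Z * (γ n * γ m) := by
          have h8 := mul_le_mul_of_nonneg_right hZg (show (0 : ℝ) ≤ N * N by positivity)
          rw [one_mul] at h8
          have h9 : Z * ((γ n : ℝ) * γ m / (N * N)) * (N * N) = Z * (γ n * γ m) := by field_simp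
          rwa [h9] at h8
        have h8 : Z * (4 * R * N) ≤ Z * (γ n * γ m) := by
          have h9 := mul_le_mul_of_nonneg_right hZB hN.le
          linarith
        exact le_of_mul_le_mul_left h8 (by linarith)
      have h7 : (γ n : ℝ) * γ m ≤ 8 * N * T := by
        have h8 : 2 * (N : ℝ) * ∑ j ∈ Ioc n (m - 1), (γ j : ℝ) ≤ 2 * N * (T + R) := by
          rw [hT]
          exact mul_le_mul_of_nonneg_left h1 (by positivity)
        have h9 : 2 * (N : ℝ) * (T + R) = 2 * N * T + 2 * R * N := by ring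
        have h10 : 8 * (N : ℝ) * T = 2 * (2 * N * T) * 2 := by ring
        have h12 : 0 ≤ R * N := mul_nonneg (by linarith) hN.le
        have h11 : 0 ≤ 2 * (N : ℝ) * T := by
          by_contra hc
          push Not at hc
          linarith
        linarith
      rw [← hT]
      have h8 : 8 * (T / N) = (8 * N * T) / (N * N) := by
        field_simp
      rw [h8]
      exact div_le_div_of_nonneg_right h7 (by positivity)
  · rw [sum_gg N f γ B (Ioc 0 (big f γ B).card) (fun k hk => by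
      have := mem_Ioc.1 hk
      omega) (fun l => l ∈ Icc 2 f) (fun k hk1 hk2 => by
      rw [mem_Ioc, mem_Icc]
      have h5 := (mem_big.1 (idx_mem hk1 hk2)).1
      exact ⟨fun _ => h5, fun _ => ⟨by omega, hk2⟩⟩)]
    have h1 := Des.sum_small h hB (Icc 2 f) le_rfl
    rw [← hR] at h1
    have h3 := Des.tel h (n := 1) le_rfl f (by have := h.ge; omega) le_rfl
    rw [h.one, h.zero, show Ioc 1 f = Icc 2 f from rfl, sub_zero] at h3
    have h4 : (N : ℝ) - 2 = ∑ j ∈ Icc 2 f, (γ j : ℝ) := by exact_mod_cast h3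
    obtain ⟨T, hT⟩ : ∃ T, T = ∑ l ∈ (big f γ B).filter (· ∈ Icc 2 f), (γ l : ℝ) := ⟨_, rfl⟩
    rw [← hT] at h1 ⊢
    rw [← mul_div_assoc, le_div_iff₀ hN, one_mul]
    linarith

/-- many large gcds -/
theorem Des.many (h : Des N f a γ) {B Z : ℝ} (hB : 1 ≤ B) (hZ : 1 ≤ Z)
    (hZB : 4 * Z * (f * (f + B)) ≤ N) :
    (Real.log Z) ^ 2 ≤ 10 ^ 6 * (big f γ B).card :=
  st_main _ _ _ (Des.jumps h hB hZ hZB) hZ

end Pool.Agent.U901.GL
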