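import Pool.Agent.U901.GL.A
import Pool.Agent.N60.ZG.INC

/-!
# Recursions with a slowly increasing second argument of the gcd: many very large gcds

The large gcds, as a sequence of their own, satisfy the hypotheses `Jumps` of the main inequality of
project ZG.
-/

set_option autoImplicit false

namespace Pool.Agent.U901.GL

open Finset Pool.Agent.R330.GL Pool.Agent.N60.ZG

/-- the data of a descent with increasing second arguments -/
structure IncDes (n₀ f : ℕ) (a V : ℕ → ℕ) : Prop where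
  lt : n₀ < f
  start : a n₀ = V n₀
  zero : a f = 0
  pos : 0 < V n₀
  step : ∀ n, n₀ < n → n ≤ f → 0 < a (n - 1) ∧ a n + Nat.gcd (a (n - 1)) (V n) = a (n - 1)
  inc : ∀ n, n₀ ≤ n → n < f → V n < V (n + 1)

/-- the gcds -/
def gc (a V : ℕ → ℕ) (n : ℕ) : ℕ := Nat.gcd (a (n - 1)) (V n)

variable {n₀ f : ℕ} {a V : ℕ → ℕ}

lemma IncDes.tel (h : IncDes n₀ f a V) {i : ℕ} (hi : n₀ ≤ i) :
    ∀ j, i ≤ j → j ≤ f → a j + ∑ k ∈ Ioc i j, gc a V k = a i := by
  intro j hij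
  induction j, hij using Nat.le_induction with
  | base =>
    intro _
    simp
  | succ j hij ih =>
    intro hj
    have h1 := ih (by omega)
    have h2 := (h.step (j + 1) (by omega) hj).2
    rw [Nat.add_sub_cancel] at h2
    rw [sum_Ioc_succ_top hij]
    have h3 : gc a V (j + 1) = Nat.gcd (a j) (V (j + 1)) := by rw [gc, Nat.add_sub_cancel]
    omega

lemma IncDes.Vm (h : IncDes n₀ f a V) {i : ℕ} (hi : n₀ ≤ i) :
    ∀ j, i ≤ j → j ≤ f → V i ≤ V j := by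
  intro j hij
  induction j, hij using Nat.le_induction with
  | base =>
    intro _
    exact le_rfl
  | succ j hij ih =>
    intro hj
    exact (ih (by omega)).trans (h.inc j (by omega) (by omega)).le

lemma IncDes.Vs (h : IncDes n₀ f a V) {i : ℕ} (hi : n₀ ≤ i) {j : ℕ} (hij : i < j) (hj : j ≤ f) :
    V i < V j :=
  lt_of_lt_of_le (h.inc i hi (by omega)) (h.Vm (by omega) j hij hj)

lemma IncDes.gc_pos (h : IncDes n₀ f a V) {n : ℕ} (h1 : n₀ < n) (h2 : n ≤ f) : 0 < gc a V n :=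
  Nat.gcd_pos_of_pos_left _ (h.step n h1 h2).1

lemma IncDes.gc_dvd (h : IncDes n₀ f a V) {n : ℕ} (h1 : n₀ < n) (h2 : n ≤ f) : gc a V n ∣ a n := by
  have h3 := (h.step n h1 h2).2
  have h4 : gc a V n ∣ a (n - 1) := Nat.gcd_dvd_left _ _
  rw [← h3] at h4
  exact (Nat.dvd_add_left dvd_rfl).1 h4

/-- the inequality for two steps -/
lemma IncDes.pair (h : IncDes n₀ f a V) (h2V : V f ≤ 2 * V n₀) {n m : ℕ} (hn : n₀ ≤ n)
    (hnm : n < m) (hm : m ≤ f) {G : ℕ} (h1 : G ∣ V n) (h2 : G ∣ a n)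
    (hq : 4 * (V n₀ : ℤ) * ((V m : ℤ) - V n) ≤ G * gc a V m) :
    (G : ℤ) * gc a V m ≤ 4 * V n₀ * ((a n : ℤ) - a (m - 1)) := by
  obtain ⟨μ, hμ⟩ := h1
  obtain ⟨x, hx⟩ := h2
  have h3 : gc a V m ∣ V m := Nat.gcd_dvd_right _ _
  have h4 : gc a V m ∣ a (m - 1) := Nat.gcd_dvd_left _ _
  obtain ⟨μ', hμ'⟩ := h3
  obtain ⟨y, hy⟩ := h4
  have hVn : 0 < V n := lt_of_lt_of_le h.pos (h.Vm le_rfl n hn (by omega))
  have hμ0 : 0 < μ := by
    rcases Nat.eq_zero_or_pos μ with h | h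
    · rw [h, Nat.mul_zero] at hμ
      omega
    · exact h
  have hapos := (h.step m (by omega) hm).1
  have hGj := h.gc_pos (by omega : n₀ < m) hm
  have hT := h.tel hn (m - 1) (by omega) (by omega)
  have hle : a (m - 1) ≤ V n₀ := by
    have := h.tel le_rfl (m - 1) (by omega) (by omega)
    rw [h.start] at this
    omega
  have hle2 : a (m - 1) ≤ a n := by omega
  have hVm : V m ≤ V f := h.Vm (by omega) f hm le_rfl
  refine INC.pair_arith (G : ℤ) (gc a V m) μ μ' x y _ (V n) (V m) (V n₀) (by positivity)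
    (by exact_mod_cast hGj) (by exact_mod_cast hμ) (by exact_mod_cast hμ') ?_
    (by exact_mod_cast hμ0) (by omega) (by exact_mod_cast h.Vs hn hnm hm) (by exact_mod_cast hVn)
    ?_ ?_ ?_ hq
  · have e1 : ((G : ℤ)) * x = a n := by exact_mod_cast hx.symm
    have e2 : ((gc a V m : ℕ) : ℤ) * y = a (m - 1) := by exact_mod_cast hy.symm
    rw [e1, e2]
    ring
  · rw [hy] at hapos
    exact_mod_cast hapos
  · have : gc a V m * y ≤ V m := by
      rw [← hy]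
      exact hle.trans (h.Vm le_rfl m (by omega) hm)
    exact_mod_cast this
  · exact_mod_cast hVm.trans h2V

/-- the steps with a gcd of size at least `B` -/
noncomputable def bigI (n₀ f : ℕ) (a V : ℕ → ℕ) (B : ℝ) : Finset ℕ :=
  (Ioc n₀ f).filter fun n => B ≤ (gc a V n : ℝ)

lemma mem_bigI {B : ℝ} {n : ℕ} :
    n ∈ bigI n₀ f a V B ↔ (n₀ < n ∧ n ≤ f) ∧ B ≤ (gc a V n : ℝ) := by
  rw [bigI, mem_filter, mem_Ioc]

lemma sum_smallI {B : ℝ} (hB : 0 ≤ B) (hnf : n₀ ≤ f) (I : Finset ℕ) (hI : I ⊆ Ioc n₀ f) :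
    ∑ j ∈ I, (gc a V j : ℝ) ≤
      ∑ j ∈ (bigI n₀ f a V B).filter (· ∈ I), (gc a V j : ℝ) + ((f : ℝ) - n₀) * B := by
  classical
  have h1 : (bigI n₀ f a V B).filter (· ∈ I) = I.filter fun n => B ≤ (gc a V n : ℝ) := by
    ext n
    simp only [bigI, mem_filter]
    constructor
    · rintro ⟨⟨_, h1⟩, h2⟩
      exact ⟨h2, h1⟩
    · rintro ⟨h1, h2⟩
      exact ⟨⟨hI h1, h2⟩, h1⟩
  rw [h1, ← Finset.sum_filter_add_sum_filter_not I fun n => B ≤ (gc a V n : ℝ)]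
  refine add_le_add le_rfl ?_
  have h2 : ∀ n ∈ I.filter (fun n => ¬ (B ≤ (gc a V n : ℝ))), (gc a V n : ℝ) ≤ B := by
    intro n hn
    rw [mem_filter] at hn
    exact (not_le.1 hn.2).le
  have h3 := Finset.sum_le_sum h2
  refine h3.trans ?_
  rw [sum_const, nsmul_eq_mul]
  have h4 : ((I.filter (fun n => ¬ (B ≤ (gc a V n : ℝ)))).card : ℝ) ≤ (f : ℝ) - n₀ := by
    have h5 : (I.filter (fun n => ¬ (B ≤ (gc a V n : ℝ)))).card ≤ (Ioc n₀ f).card :=
      (card_le_card (filter_subset _ I)).trans (card_le_card hI)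
    rw [Nat.card_Ioc] at h5
    have h6 : ((I.filter (fun n => ¬ (B ≤ (gc a V n : ℝ)))).card : ℝ) ≤ ((f - n₀ : ℕ) : ℝ) := by
      exact_mod_cast h5
    rwa [Nat.cast_sub hnf] at h6
  exact mul_le_mul_of_nonneg_right h4 hB

/-- the sequence of the large gcds, divided by the first value -/
noncomputable def hh (n₀ f : ℕ) (a V : ℕ → ℕ) (B : ℝ) (k : ℕ) : ℝ :=
  if k = 0 then 1 else if k ≤ (bigI n₀ f a V B).card then
    (gc a V (idx (bigI n₀ f a V B) k) : ℝ) / V n₀ else 0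

lemma hh_of (B : ℝ) {k : ℕ} (h1 : 1 ≤ k) (h2 : k ≤ (bigI n₀ f a V B).card) :
    hh n₀ f a V B k = (gc a V (idx (bigI n₀ f a V B) k) : ℝ) / V n₀ := by
  rw [hh, if_neg (by omega), if_pos h2]

lemma sum_hh (B : ℝ) (I : Finset ℕ)
    (hI : ∀ k ∈ I, 1 ≤ k ∧ k ≤ (bigI n₀ f a V B).card) (p : ℕ → Prop) [DecidablePred p]
    (hp : ∀ k, 1 ≤ k → k ≤ (bigI n₀ f a V B).card → (k ∈ I ↔ p (idx (bigI n₀ f a V B) k))) :
    ∑ k ∈ I, hh n₀ f a V B k = (∑ n ∈ (bigI n₀ f a V B).filter p, (gc a V n : ℝ)) / V n₀ := by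
  rw [sum_div, ← sum_idx (bigI n₀ f a V B) (fun n => (gc a V n : ℝ) / V n₀) I hI p hp]
  exact sum_congr rfl fun k hk => hh_of B (hI k hk).1 (hI k hk).2

/-- the large gcds satisfy the hypotheses of the main inequality -/
theorem IncDes.jumps (h : IncDes n₀ f a V) {B Z : ℝ} (hB : 0 ≤ B) (hZ : 1 ≤ Z)
    (hZV : 4 * Z * ((V f : ℝ) - V n₀) ≤ V n₀) (hZB : 8 * Z * (((f : ℝ) - n₀) * B) ≤ V n₀) :
    Jumps (bigI n₀ f a V B).card (hh n₀ f a V B) Z := by
  classical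
  have hV0 : (0 : ℝ) < V n₀ := by exact_mod_cast h.pos
  have hnf := h.lt
  have hfn : (0 : ℝ) ≤ (f : ℝ) - n₀ := by
    have : (n₀ : ℝ) ≤ f := by exact_mod_cast hnf.le
    linarith
  obtain ⟨R, hR⟩ : ∃ R, R = ((f : ℝ) - n₀) * B := ⟨_, rfl⟩
  have hR0 : 0 ≤ R := by rw [hR]; exact mul_nonneg hfn hB
  rw [← hR] at hZB
  have hVf : (V n₀ : ℝ) ≤ V f := by exact_mod_cast h.Vm le_rfl f hnf.le le_rfl
  have h2V : V f ≤ 2 * V n₀ := by
    have h1 : (V f : ℝ) - V n₀ ≤ Z * ((V f : ℝ) - V n₀) := by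
      have := mul_le_mul_of_nonneg_right hZ (sub_nonneg.2 hVf)
      linarith
    have h2 : (V f : ℝ) ≤ 2 * V n₀ := by nlinarith
    exact_mod_cast h2
  have hRV : 8 * R ≤ V n₀ := by
    have : 8 * R * 1 ≤ 8 * R * Z := mul_le_mul_of_nonneg_left hZ (by positivity)
    linarith
  -- the inequality for two steps
  have main : ∀ n m : ℕ, n₀ ≤ n → n < m → m ≤ f → ∀ G : ℕ, G ∣ V n → G ∣ a n →
      1 ≤ Z * ((G : ℝ) / V n₀ * ((gc a V m : ℝ) / V n₀)) →
      (G : ℝ) / V n₀ * ((gc a V m : ℝ) / V n₀) ≤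
        8 * ((∑ l ∈ (bigI n₀ f a V B).filter (· ∈ Ioc n (m - 1)), (gc a V l : ℝ)) / V n₀) := by
    intro n m hn hnm hm G h1 h2 hZg
    obtain ⟨P, hP⟩ : ∃ P : ℝ, P = (G : ℝ) * gc a V m := ⟨_, rfl⟩
    have e1 : (G : ℝ) / V n₀ * ((gc a V m : ℝ) / V n₀) = P / (V n₀ * V n₀) := by
      rw [hP]
      field_simp
    rw [e1] at hZg ⊢
    have hZP : (V n₀ : ℝ) * V n₀ ≤ Z * P := by
      have h8 := mul_le_mul_of_nonneg_right hZg (show (0 : ℝ) ≤ V n₀ * V n₀ by positivity)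
      rw [one_mul] at h8
      have h9 : Z * (P / (V n₀ * V n₀)) * (V n₀ * V n₀) = Z * P := by field_simp
      rwa [h9] at h8
    have hVnm : (V m : ℝ) - V n ≤ V f - V n₀ := by
      have e1 : (V m : ℝ) ≤ V f := by exact_mod_cast h.Vm (by omega) f hm le_rfl
      have e2 : (V n₀ : ℝ) ≤ V n := by exact_mod_cast h.Vm le_rfl n hn (by omega)
      linarith
    have hq : 4 * (V n₀ : ℝ) * ((V m : ℝ) - V n) ≤ P := by
      have h3 : Z * (4 * (V n₀ : ℝ) * ((V m : ℝ) - V n)) ≤ Z * P := by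
        have h4 : Z * (4 * (V n₀ : ℝ) * ((V m : ℝ) - V n)) ≤
            Z * (4 * (V n₀ : ℝ) * ((V f : ℝ) - V n₀)) :=
          mul_le_mul_of_nonneg_left (mul_le_mul_of_nonneg_left hVnm (by positivity)) (by linarith)
        have h5 := mul_le_mul_of_nonneg_right hZV hV0.le
        linarith
      exact le_of_mul_le_mul_left h3 (by linarith)
    have hpair := h.pair h2V hn hnm hm h1 h2 (by
      rw [hP] at hq
      exact_mod_cast hq)
    have hT := h.tel hn (m - 1) (by omega) (by omega)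
    have hTr : (a n : ℝ) - a (m - 1) = ∑ k ∈ Ioc n (m - 1), (gc a V k : ℝ) := by
      have : (a (m - 1) : ℝ) + ∑ k ∈ Ioc n (m - 1), (gc a V k : ℝ) = a n := by exact_mod_cast hT
      linarith
    have hpr : P ≤ 4 * V n₀ * ((a n : ℝ) - a (m - 1)) := by
      rw [hP]
      exact_mod_cast hpair
    rw [hTr] at hpr
    have h3 := sum_smallI (a := a) (V := V) hB hnf.le (Ioc n (m - 1)) (Ioc_subset_Ioc hn (by omega))
    rw [← hR] at h3
    obtain ⟨T, hT⟩ : ∃ T, T = ∑ l ∈ (bigI n₀ f a V B).filter (· ∈ Ioc n (m - 1)), (gc a V l : ℝ) :=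
      ⟨_, rfl⟩
    rw [← hT] at h3 ⊢
    have h4 : 4 * (V n₀ : ℝ) * ∑ k ∈ Ioc n (m - 1), (gc a V k : ℝ) ≤ 4 * V n₀ * (T + R) :=
      mul_le_mul_of_nonneg_left h3 (by positivity)
    have h5 : 8 * R * V n₀ ≤ P := by
      have h6 : Z * (8 * R * V n₀) ≤ Z * P := by
        have := mul_le_mul_of_nonneg_right hZB hV0.le
        linarith
      exact le_of_mul_le_mul_left h6 (by linarith)
    have h6 : P ≤ 8 * (V n₀ : ℝ) * T := by linarith
    have h8 : 8 * (T / (V n₀ : ℝ)) = (8 * V n₀ * T) / (V n₀ * V n₀) := by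
      field_simp
    rw [h8]
    exact div_le_div_of_nonneg_right h6 (by positivity)
  refine ⟨?_, ?_, ?_, ?_⟩
  · rw [hh, if_pos rfl]
  · intro k
    rw [hh]
    split_ifs with h1 h2
    · exact zero_le_one
    · positivity
    · exact le_rfl
  · intro i j hij hj hZg
    set E := bigI n₀ f a V B with hE
    have hj1 : 1 ≤ j := by omega
    have mj := mem_bigI.1 (idx_mem hj1 hj)
    obtain ⟨m, hm⟩ : ∃ m, m = idx E j := ⟨_, rfl⟩
    rw [← hE, ← hm] at mj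
    rcases Nat.eq_zero_or_pos i with hi | hi
    · subst hi
      have e0 : hh n₀ f a V B 0 = (V n₀ : ℝ) / V n₀ := by
        rw [hh, if_pos rfl, div_self hV0.ne']
      rw [e0, hh_of B hj1 hj, ← hE, ← hm] at hZg ⊢
      rw [sum_hh B (Ioo 0 j) (fun k hk => by
        have := mem_Ioo.1 hk
        rw [← hE]
        omega) (fun l => l ∈ Ioc n₀ (m - 1)) (fun k hk1 hk2 => by
        rw [← hE] at hk2
        rw [mem_Ioo, mem_Ioc, ← hE, hm]
        have h5 := (mem_bigI.1 (idx_mem (E := E) hk1 hk2)).1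
        rw [← idx_lt_iff hk1 hk2 hj1 hj]
        omega)]
      exact main n₀ m le_rfl mj.1.1 mj.1.2 (V n₀) dvd_rfl (by rw [h.start]) hZg
    · have hi' : i ≤ E.card := by omega
      have mi := mem_bigI.1 (idx_mem hi hi')
      obtain ⟨n, hn⟩ : ∃ n, n = idx E i := ⟨_, rfl⟩
      rw [← hE, ← hn] at mi
      have hnm : n < m := by
        rw [hn, hm]
        exact idx_lt hi hij hj
      rw [hh_of B hj1 hj, hh_of B hi hi', ← hE, ← hm, ← hn] at hZg ⊢
      rw [sum_hh B (Ioo i j) (fun k hk => by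
        have := mem_Ioo.1 hk
        rw [← hE]
        omega) (fun l => l ∈ Ioc n (m - 1)) (fun k hk1 hk2 => by
        rw [← hE] at hk2
        rw [mem_Ioo, mem_Ioc, ← hE, hm, hn, ← idx_lt_iff hk1 hk2 hj1 hj,
          ← idx_lt_iff hi hi' hk1 hk2]
        omega)]
      exact main n m mi.1.1.le hnm mj.1.2 (gc a V n) (Nat.gcd_dvd_right _ _)
        (h.gc_dvd mi.1.1 mi.1.2) hZg
  · rw [sum_hh B (Ioc 0 (bigI n₀ f a V B).card) (fun k hk => by
      have := mem_Ioc.1 hk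
      omega) (fun l => l ∈ Ioc n₀ f) (fun k hk1 hk2 => by
      rw [mem_Ioc, mem_Ioc]
      have h5 := (mem_bigI.1 (idx_mem hk1 hk2)).1
      exact ⟨fun _ => h5, fun _ => ⟨by omega, hk2⟩⟩)]
    have h1 := sum_smallI (a := a) (V := V) hB hnf.le (Ioc n₀ f) le_rfl
    rw [← hR] at h1
    have h3 := h.tel le_rfl f hnf.le le_rfl
    rw [h.zero, zero_add, h.start] at h3
    have h4 : ∑ j ∈ Ioc n₀ f, (gc a V j : ℝ) = V n₀ := by exact_mod_cast h3
    obtain ⟨T, hT⟩ : ∃ T, T = ∑ l ∈ (bigI n₀ f a V B).filter (· ∈ Ioc n₀ f), (gc a V l : ℝ) :=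
      ⟨_, rfl⟩
    rw [← hT] at h1 ⊢
    rw [← mul_div_assoc, le_div_iff₀ hV0, one_mul]
    linarith

/-- many large gcds -/
theorem IncDes.many (h : IncDes n₀ f a V) {B Z : ℝ} (hB : 0 ≤ B) (hZ : 1 ≤ Z)
    (hZV : 4 * Z * ((V f : ℝ) - V n₀) ≤ V n₀) (hZB : 8 * Z * (((f : ℝ) - n₀) * B) ≤ V n₀) :
    (Real.log Z) ^ 2 ≤ 10 ^ 6 * (bigI n₀ f a V B).card :=
  st_main _ _ _ (h.jumps hB hZ hZV hZB) hZ

end Pool.Agent.U901.GL
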